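import Mathlib

/-!
# There is no universal countable right-orderable group

For every set `S` of positive integers we build a group generated by two elements, nilpotent of
class two by infinite cyclic, which admits a two-sided invariant total order and in which the
element `a` commutes with `t ^ k * a * t ^ (-k)` exactly when `k` is not in `S`.
-/

namespace Pool.Agent.Results.MP_49314d_al.NoUniversal

open LaurentPolynomial

/-- A total order on a group which is invariant under all right translations and under all left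
translations.  (Invariance under right translations alone is what makes a right order.) -/
structure IsTwoSidedOrder (G : Type*) [Group G] (r : G → G → Prop) : Prop where
  /-- reflexive -/
  refl : ∀ x, r x x
  /-- transitive -/
  trans : ∀ x y z, r x y → r y z → r x z
  /-- antisymmetric -/
  antisymm : ∀ x y, r x y → r y x → x = y
  /-- total -/
  total : ∀ x y, r x y ∨ r y x
  /-- invariant under right translations -/
  mul_right : ∀ x y z, r x y → r (x * z) (y * z)
  /-- invariant under left translations -/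
  mul_left : ∀ x y z, r x y → r (z * x) (z * y)

/-- The underlying set of the big group. -/
@[ext] structure Big (P : ℤ[T;T⁻¹] →+ (ℤ →₀ ℤ)) where
  /-- abelianised lamp part -/
  x : ℤ[T;T⁻¹]
  /-- central part -/
  c : ℤ →₀ ℤ
  /-- the exponent of the shift -/
  n : ℤ

variable {P : ℤ[T;T⁻¹] →+ (ℤ →₀ ℤ)}

namespace Big

noncomputable instance : Mul (Big P) :=
  ⟨fun g h => ⟨g.x + T g.n * h.x, g.c + h.c + P (invert g.x * (T g.n * h.x)), g.n + h.n⟩⟩
noncomputable instance : One (Big P) := ⟨⟨0, 0, 0⟩⟩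
noncomputable instance : Inv (Big P) :=
  ⟨fun g => ⟨-(T (-g.n) * g.x), -g.c + P (invert g.x * g.x), -g.n⟩⟩

@[simp] lemma mul_x (g h : Big P) : (g * h).x = g.x + T g.n * h.x := rfl
@[simp] lemma mul_c (g h : Big P) :
    (g * h).c = g.c + h.c + P (invert g.x * (T g.n * h.x)) := rfl
@[simp] lemma mul_n (g h : Big P) : (g * h).n = g.n + h.n := rfl
@[simp] lemma one_x : (1 : Big P).x = 0 := rfl
@[simp] lemma one_c : (1 : Big P).c = 0 := rfl
@[simp] lemma one_n : (1 : Big P).n = 0 := rfl
@[simp] lemma inv_x (g : Big P) : (g⁻¹).x = -(T (-g.n) * g.x) := rfl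
@[simp] lemma inv_c (g : Big P) : (g⁻¹).c = -g.c + P (invert g.x * g.x) := rfl
@[simp] lemma inv_n (g : Big P) : (g⁻¹).n = -g.n := rfl

lemma T_cancel (n : ℤ) : (T (-n) : ℤ[T;T⁻¹]) * T n = 1 := by
  rw [← T_add]; simp

lemma T_cancel' (n : ℤ) : (T n : ℤ[T;T⁻¹]) * T (-n) = 1 := by
  rw [← T_add]; simp

noncomputable instance : Group (Big P) :=
  Group.ofLeftAxioms
    (by
      intro a b d
      ext1
      · simp only [mul_x, mul_n]
        rw [T_add]
        ring
      · have h : invert (T a.n * b.x) * (T (a.n + b.n) * d.x) = invert b.x * (T b.n * d.x) := by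
          rw [map_mul, invert_T, T_add]
          calc T (-a.n) * invert b.x * (T a.n * T b.n * d.x)
              = (T (-a.n) * T a.n) * (invert b.x * (T b.n * d.x)) := by ring
            _ = _ := by rw [T_cancel, one_mul]
        simp only [mul_c, mul_x, mul_n, map_add, add_mul, mul_add, h]
        rw [T_add]
        simp only [mul_assoc]
        abel
      · simp [add_assoc])
    (by
      intro a
      ext1 <;> simp)
    (by
      intro a
      ext1
      · simp
      · have h : invert (-(T (-a.n) * a.x)) * (T (-a.n) * a.x) = -(invert a.x * a.x) := by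
          rw [map_neg, map_mul, invert_T, neg_neg]
          calc -(T a.n * invert a.x) * (T (-a.n) * a.x)
              = -((T a.n * T (-a.n)) * (invert a.x * a.x)) := by ring
            _ = _ := by rw [T_cancel', one_mul]
        change (-a.c + P (invert a.x * a.x)) + a.c +
          P (invert (-(T (-a.n) * a.x)) * (T (-a.n) * a.x)) = 0
        rw [h, map_neg]
        abel
      · simp)

/-- strict order on finitely supported functions: the value at the least index of difference -/
def flt (u v : ℤ →₀ ℤ) : Prop := ∃ j, (∀ d < j, u d = v d) ∧ u j < v j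

lemma flt_iff (u v : ℤ →₀ ℤ) : flt u v ↔ toLex u < toLex v := by
  rw [Finsupp.Lex.lt_iff]
  rfl

lemma flt_trans {u v w : ℤ →₀ ℤ} (h : flt u v) (h' : flt v w) : flt u w := by
  rw [flt_iff] at *
  exact h.trans h'

lemma flt_irrefl (u : ℤ →₀ ℤ) : ¬ flt u u := by
  rintro ⟨j, _, h⟩
  exact lt_irrefl _ h

lemma flt_total (u v : ℤ →₀ ℤ) : flt u v ∨ u = v ∨ flt v u := by
  rw [flt_iff, flt_iff]
  rcases lt_trichotomy (toLex u) (toLex v) with h | h | h
  · exact Or.inl h
  · exact Or.inr (Or.inl (toLex.injective h))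
  · exact Or.inr (Or.inr h)

lemma flt_add (w : ℤ →₀ ℤ) {u v : ℤ →₀ ℤ} (h : flt u v) : flt (w + u) (w + v) := by
  obtain ⟨j, h1, h2⟩ := h
  exact ⟨j, fun d hd => by simp [h1 d hd], by simpa using h2⟩

/-- the order on Laurent polynomials -/
def plt (f g : ℤ[T;T⁻¹]) : Prop := flt f.coeff g.coeff

lemma plt_trans {u v w : ℤ[T;T⁻¹]} (h : plt u v) (h' : plt v w) : plt u w := flt_trans h h'

lemma plt_irrefl (u : ℤ[T;T⁻¹]) : ¬ plt u u := flt_irrefl _

lemma plt_total (u v : ℤ[T;T⁻¹]) : plt u v ∨ u = v ∨ plt v u := by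
  rcases flt_total u.coeff v.coeff with h | h | h
  · exact Or.inl h
  · exact Or.inr (Or.inl (AddMonoidAlgebra.coeff_injective h))
  · exact Or.inr (Or.inr h)

lemma plt_add (w : ℤ[T;T⁻¹]) {u v : ℤ[T;T⁻¹]} (h : plt u v) : plt (w + u) (w + v) := by
  unfold plt at *
  simpa using flt_add w.coeff h

lemma coeff_T_mul (n : ℤ) (f : ℤ[T;T⁻¹]) (k : ℤ) : (T n * f).coeff k = f.coeff (k - n) := by
  rw [T, AddMonoidAlgebra.coeff_single_mul_eq_mul_coeff (m₂ := k - n)]
  · simp
  · intro m _
    omega

lemma plt_T_mul (n : ℤ) {u v : ℤ[T;T⁻¹]} (h : plt u v) : plt (T n * u) (T n * v) := by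
  obtain ⟨j, h1, h2⟩ := h
  refine ⟨j + n, fun d hd => ?_, ?_⟩
  · rw [coeff_T_mul, coeff_T_mul]
    exact h1 _ (by omega)
  · rw [coeff_T_mul, coeff_T_mul]
    simpa using h2

/-- strict part of the order on the big group -/
def blt (g h : Big P) : Prop :=
  g.n < h.n ∨ (g.n = h.n ∧ plt g.x h.x) ∨ (g.n = h.n ∧ g.x = h.x ∧ flt g.c h.c)

lemma blt_irrefl (g : Big P) : ¬ blt g g := by
  rintro (h | ⟨_, h⟩ | ⟨_, _, h⟩)
  · exact lt_irrefl _ h
  · exact plt_irrefl _ h
  · exact flt_irrefl _ h

lemma blt_trans {g h k : Big P} (h1 : blt g h) (h2 : blt h k) : blt g k := by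
  rcases h1 with h1 | ⟨h1, h1'⟩ | ⟨h1, h1', h1''⟩ <;>
    rcases h2 with h2 | ⟨h2, h2'⟩ | ⟨h2, h2', h2''⟩
  · exact Or.inl (h1.trans h2)
  · exact Or.inl (h2 ▸ h1)
  · exact Or.inl (h2 ▸ h1)
  · exact Or.inl (h1 ▸ h2)
  · exact Or.inr (Or.inl ⟨h1.trans h2, plt_trans h1' h2'⟩)
  · exact Or.inr (Or.inl ⟨h1.trans h2, h2' ▸ h1'⟩)
  · exact Or.inl (h1 ▸ h2)
  · exact Or.inr (Or.inl ⟨h1.trans h2, h1' ▸ h2'⟩)
  · exact Or.inr (Or.inr ⟨h1.trans h2, h1'.trans h2', flt_trans h1'' h2''⟩)

lemma blt_total (g h : Big P) : blt g h ∨ g = h ∨ blt h g := by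
  rcases lt_trichotomy g.n h.n with hn | hn | hn
  · exact Or.inl (Or.inl hn)
  · rcases plt_total g.x h.x with hx | hx | hx
    · exact Or.inl (Or.inr (Or.inl ⟨hn, hx⟩))
    · rcases flt_total g.c h.c with hc | hc | hc
      · exact Or.inl (Or.inr (Or.inr ⟨hn, hx, hc⟩))
      · exact Or.inr (Or.inl (Big.ext hx hc hn))
      · exact Or.inr (Or.inr (Or.inr (Or.inr ⟨hn.symm, hx.symm, hc⟩)))
    · exact Or.inr (Or.inr (Or.inr (Or.inl ⟨hn.symm, hx⟩)))
  · exact Or.inr (Or.inr (Or.inl hn))

lemma blt_mul_right {g h : Big P} (k : Big P) (H : blt g h) : blt (g * k) (h * k) := by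
  rcases H with H | ⟨H, H'⟩ | ⟨H, H', H''⟩
  · left
    simpa using H
  · refine Or.inr (Or.inl ⟨by simp [H], ?_⟩)
    rw [mul_x, mul_x, H, add_comm g.x, add_comm h.x]
    exact plt_add _ H'
  · refine Or.inr (Or.inr ⟨by simp [H], by simp [H, H'], ?_⟩)
    rw [mul_c, mul_c, H, H', add_assoc, add_assoc, add_comm g.c, add_comm h.c]
    exact flt_add _ H''

lemma blt_mul_left {g h : Big P} (k : Big P) (H : blt g h) : blt (k * g) (k * h) := by
  rcases H with H | ⟨H, H'⟩ | ⟨H, H', H''⟩
  · left
    simpa using H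
  · refine Or.inr (Or.inl ⟨by simp [H], ?_⟩)
    rw [mul_x, mul_x]
    exact plt_add _ (plt_T_mul _ H')
  · refine Or.inr (Or.inr ⟨by simp [H], by simp [H'], ?_⟩)
    rw [mul_c, mul_c, H']
    have := flt_add (k.c + P (invert k.x * (T k.n * h.x))) H''
    convert this using 1 <;> abel

/-- the big group has a two-sided order -/
lemma isTwoSidedOrder : IsTwoSidedOrder (Big P) (fun g h => g = h ∨ blt g h) where
  refl x := Or.inl rfl
  trans x y z h1 h2 := by
    rcases h1 with rfl | h1
    · exact h2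
    · rcases h2 with rfl | h2
      · exact Or.inr h1
      · exact Or.inr (blt_trans h1 h2)
  antisymm x y h1 h2 := by
    rcases h1 with h1 | h1
    · exact h1
    · rcases h2 with h2 | h2
      · exact h2.symm
      · exact absurd (blt_trans h1 h2) (blt_irrefl _)
  total x y := by
    rcases blt_total x y with h | h | h
    · exact Or.inl (Or.inr h)
    · exact Or.inl (Or.inl h)
    · exact Or.inr (Or.inr h)
  mul_right x y z h := by
    rcases h with rfl | h
    · exact Or.inl rfl
    · exact Or.inr (blt_mul_right z h)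
  mul_left x y z h := by
    rcases h with rfl | h
    · exact Or.inl rfl
    · exact Or.inr (blt_mul_left z h)

/-- the first generator -/
noncomputable def a : Big P := ⟨1, 0, 0⟩

/-- the second generator -/
noncomputable def t : Big P := ⟨0, 0, 1⟩

lemma t_pow (k : ℕ) : (t : Big P) ^ k = ⟨0, 0, k⟩ := by
  induction k with
  | zero => rw [pow_zero]; rfl
  | succ k ih =>
    rw [pow_succ, ih]
    ext1 <;> simp [t]

lemma conj_t (k : ℕ) : (t : Big P) ^ k * a * (t ^ k)⁻¹ = ⟨T k, 0, 0⟩ := by
  rw [t_pow]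
  ext1 <;> simp [a]

lemma commute_iff (k : ℕ) :
    Commute (a : Big P) (t ^ k * a * (t ^ k)⁻¹) ↔ P (T k) = P (T (-k)) := by
  rw [conj_t]
  constructor
  · intro h
    have := congrArg Big.c h.eq
    simpa [a] using this
  · intro h
    show _ * _ = _ * _
    ext1
    · simp [a, add_comm]
    · simpa [a] using h
    · simp [a]

/-- the restriction of a Laurent polynomial to the exponents `k + 1` with `k` in `S` -/
noncomputable def PS (S : Set ℕ) : ℤ[T;T⁻¹] →+ (ℤ →₀ ℤ) := by
  classical
  exact (Finsupp.filterAddHom (fun m : ℤ => ∃ k ∈ S, m = k + 1)).comp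
    AddMonoidAlgebra.coeffAddEquiv.toAddMonoidHom

lemma PS_T (S : Set ℕ) (m : ℤ) (h : ∃ k ∈ S, m = k + 1) : PS S (T m) = Finsupp.single m 1 := by
  classical
  simp only [PS, AddMonoidHom.comp_apply]
  change Finsupp.filter _ (T m : ℤ[T;T⁻¹]).coeff = _
  rw [T]
  exact Finsupp.filter_single_of_pos _ h

lemma PS_T' (S : Set ℕ) (m : ℤ) (h : ¬ ∃ k ∈ S, m = k + 1) : PS S (T m) = 0 := by
  classical
  simp only [PS, AddMonoidHom.comp_apply]
  change Finsupp.filter _ (T m : ℤ[T;T⁻¹]).coeff = _
  rw [T]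
  exact Finsupp.filter_single_of_neg _ h

lemma commute_PS (S : Set ℕ) (k : ℕ) :
    Commute (a : Big (PS S)) (t ^ (k + 1) * a * (t ^ (k + 1))⁻¹) ↔ k ∉ S := by
  rw [commute_iff, PS_T' S (-((k + 1 : ℕ) : ℤ)) (by rintro ⟨l, _, hl⟩; omega)]
  by_cases hk : k ∈ S
  · rw [PS_T S _ ⟨k, hk, by push_cast; ring⟩]
    simp [hk]
  · rw [PS_T' S]
    · simp [hk]
    · rintro ⟨l, hl, hl'⟩
      have : l = k := by push_cast at hl'; omega
      exact hk (this ▸ hl)

end Big

open Big

/-- the lags at which `u` fails to commute with its conjugates by powers of `v` -/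
def lags {U : Type*} [Group U] (q : U × U) : Set ℕ :=
  {k | ¬ Commute q.1 (q.2 ^ (k + 1) * q.1 * (q.2 ^ (k + 1))⁻¹)}

/-- **No universal countable right-orderable group exists.**  In fact, given any countable
group `U` (right-orderable or not), there is a countable group `G`, generated by two elements
and carrying a total order invariant under right translations (and even under left
translations), such that `G` is not isomorphic to a subgroup of `U`. -/
theorem result {U : Type*} [Group U] [Countable U] :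
    ∃ (G : Type) (_ : Group G), Countable G ∧ (∃ a t : G, Subgroup.closure {a, t} = ⊤) ∧
      (∃ r : G → G → Prop, IsTwoSidedOrder G r) ∧
      ¬ ∃ f : G →* U, Function.Injective f := by
  have hS : ∃ S : Set ℕ, ∀ q : U × U, lags q ≠ S := by
    by_contra hcon
    push Not at hcon
    have : Function.Surjective (lags : U × U → Set ℕ) := hcon
    have h2 : Countable (Set ℕ) := this.countable
    obtain ⟨g, hg⟩ := exists_injective_nat (Set ℕ)
    exact Function.cantor_injective g hg
  obtain ⟨S, hS⟩ := hS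
  let K : Subgroup (Big (PS S)) := Subgroup.closure {Big.a, Big.t}
  have haK : Big.a ∈ K := Subgroup.subset_closure (by simp)
  have htK : Big.t ∈ K := Subgroup.subset_closure (by simp)
  have hgen : ∃ a t : K, Subgroup.closure {a, t} = ⊤ := by
    refine ⟨⟨Big.a, haK⟩, ⟨Big.t, htK⟩, ?_⟩
    have := Subgroup.closure_closure_coe_preimage (k := ({Big.a, Big.t} : Set (Big (PS S))))
    rw [← this]
    congr 1
    ext ⟨x, hx⟩
    simp [Subtype.ext_iff]
  have hcount : Countable K := by
    have h1 : Countable (ℤ[T;T⁻¹]) :=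
      Function.Injective.countable (f := AddMonoidAlgebra.coeff)
        AddMonoidAlgebra.coeff_injective
    have h2 : Countable (Big (PS S)) := by
      refine Function.Injective.countable (f := fun g : Big (PS S) => (g.x, g.c, g.n)) ?_
      intro g h e
      simp only [Prod.mk.injEq] at e
      exact Big.ext e.1 e.2.1 e.2.2
    infer_instance
  refine ⟨K, inferInstance, hcount, hgen, ?_, ?_⟩
  · refine ⟨fun x y => (x : Big (PS S)) = y ∨ blt (x : Big (PS S)) y, ?_, ?_, ?_, ?_, ?_, ?_⟩
    · intro x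
      exact Big.isTwoSidedOrder.refl _
    · intro x y z
      exact Big.isTwoSidedOrder.trans _ _ _
    · intro x y h1 h2
      exact Subtype.ext (Big.isTwoSidedOrder.antisymm _ _ h1 h2)
    · intro x y
      exact Big.isTwoSidedOrder.total _ _
    · intro x y z
      exact Big.isTwoSidedOrder.mul_right _ _ _
    · intro x y z
      exact Big.isTwoSidedOrder.mul_left _ _ _
  · rintro ⟨f, hf⟩
    apply hS (f ⟨Big.a, haK⟩, f ⟨Big.t, htK⟩)
    ext k
    have h1 : Commute (f ⟨Big.a, haK⟩)
        (f ⟨Big.t, htK⟩ ^ (k + 1) * f ⟨Big.a, haK⟩ * (f ⟨Big.t, htK⟩ ^ (k + 1))⁻¹) ↔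
        Commute (Big.a : Big (PS S)) (Big.t ^ (k + 1) * Big.a * (Big.t ^ (k + 1))⁻¹) := by
      unfold Commute SemiconjBy
      rw [← map_pow, ← map_inv, ← map_mul, ← map_mul, ← map_mul, ← map_mul, hf.eq_iff,
        Subtype.ext_iff]
      rfl
    show ¬ Commute _ _ ↔ _
    rw [h1, commute_PS, not_not]

end Pool.Agent.Results.MP_49314d_al.NoUniversal
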